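import Pool.Agent.Helper28.GossCounter

/-!
# A Goss zeta value at a negative odd integer that vanishes

The counterexample has `q = 3` and `s = -17`.  The function field is `K = F_3(t)(y)` with
`y ^ 3 - y = (t ^ 3 - t ^ 2 + 1) / (t ^ 3 + t ^ 2 + t - 1)`, of genus `4`, and `∞` is the unique
place above the prime `t ^ 5 + t ^ 4 - 1`, which is inert in `K`; it has degree `15`.
-/

namespace Pool.Agent.Results.MP_b811f7_nt.Disproof

open Pool.Agent.Helper28.Goss

/-- There are a function field `K` with full constant field `F_3`, a place `P` (the place `∞`), a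
sign function and a set `S` of representatives of `F_∞^* / F_3^*` such that `ζ_A(-17) = 0`, although
`17` is not divisible by `q - 1 = 2`. -/
theorem result : ∃ (K : Type) (_ : Field K) (_ : Algebra (ZMod 3) K) (P : Place (ZMod 3) K)
    (sgn : SignFunction P) (S : Set (P.ResidueField)ˣ),
    IsFunctionField (ZMod 3) K ∧ IsFullConstantField (ZMod 3) K ∧ IsRepresentatives P S ∧
      IsZetaValue P sgn S 17 0 ∧ ¬ (Nat.card (ZMod 3) - 1 ∣ 17) := by
  obtain ⟨S, h1, h2⟩ := counterexample
  refine ⟨KK, inferInstance, inferInstance, Pinf, isUnif.sgn.ext, S, isFunctionField, isFull, h1,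
    h2.ext, ?_⟩
  rw [Nat.card_zmod]
  norm_num

end Pool.Agent.Results.MP_b811f7_nt.Disproof
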